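import Pool.Agent.H8.DE.Targets

/-!
# Board det_modules: EV (evaluation of formulas)
-/

set_option autoImplicit false

namespace Pool.Agent.H75.DE

open Pool.Agent.H69.Sp Pool.Agent.H69.VR Pool.Agent.H8.VR Pool.Agent.H8.JS Pool.Agent.H8.MC
  Pool.Agent.H8.DE

/-- The variables below `k` and the table agree. -/
def Agr (k : ℕ) (σ σ' : Z1) : Prop := σ'.tb = σ.tb ∧ ∀ i < k, σ'.v i = σ.v i

lemma Agr.trans {k : ℕ} {σ σ' σ'' : Z1} (h : Agr k σ σ') (h' : Agr k σ' σ'') : Agr k σ σ'' :=
  ⟨h'.1.trans h.1, fun i hi => (h'.2 i hi).trans (h.2 i hi)⟩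

lemma Agr.mono {k k' : ℕ} {σ σ' : Z1} (h : Agr k' σ σ') (hk : k ≤ k') : Agr k σ σ' :=
  ⟨h.1, fun i hi => h.2 i (lt_of_lt_of_le hi hk)⟩

lemma cal_iff {k : ℕ} {p : P1} {B : ℕ} {σ : Z1} {r : ℕ} :
    Cal k p B σ r ↔ Agr k σ (run B p σ) ∧ (run B p σ).v k = r :=
  ⟨fun h => ⟨⟨h.1, h.2.1⟩, h.2.2⟩, fun h => ⟨h.1.1, h.1.2, h.2⟩⟩

lemma cal_seq {k : ℕ} {p q : P1} {B : ℕ} {σ : Z1} {r r' : ℕ} (h : Cal k p B σ r)
    (h' : ∀ σ', Agr k σ σ' → σ'.v k = r → Cal k q B σ' r') : Cal k (.seq p q) B σ r' := by
  rw [cal_iff] at h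
  have h1 := cal_iff.1 (h' _ h.1 h.2)
  exact cal_iff.2 ⟨h.1.trans h1.1, h1.2⟩

/-- a program with a result at a higher level first -/
lemma cal_seq' {k k' : ℕ} {p q : P1} {B : ℕ} {σ : Z1} {r r' : ℕ} (hk : k ≤ k')
    (h : Cal k' p B σ r)
    (h' : ∀ σ', Agr k' σ σ' → σ'.v k' = r → Cal k q B σ' r') : Cal k (.seq p q) B σ r' := by
  rw [cal_iff] at h
  have h1 := cal_iff.1 (h' _ h.1 h.2)
  exact cal_iff.2 ⟨(h.1.mono hk).trans h1.1, h1.2⟩

lemma cal_zer (k B : ℕ) (σ : Z1) : Cal k (.zer k) B σ 0 :=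
  ⟨rfl, fun _ hi => Function.update_of_ne (ne_of_lt hi) .., Function.update_self ..⟩

lemma cal_suc (k B : ℕ) (σ : Z1) : Cal k (.suc k) B σ (min (σ.v k + 1) B) :=
  ⟨rfl, fun _ hi => Function.update_of_ne (ne_of_lt hi) .., Function.update_self ..⟩

lemma cal_cpy (k j B : ℕ) (σ : Z1) : Cal k (.cpy k j) B σ (σ.v j) :=
  ⟨rfl, fun _ hi => Function.update_of_ne (ne_of_lt hi) .., Function.update_self ..⟩

/-- the constant one -/
def one (k : ℕ) : P1 := .seq (.zer k) (.suc k)

lemma cal_one (k : ℕ) {B : ℕ} (hB : 1 ≤ B) (σ : Z1) : Cal k (one k) B σ 1 := by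
  refine cal_seq (cal_zer k B σ) fun σ' _ h => ?_
  have h1 := cal_suc k B σ'
  rw [h] at h1
  have h2 : min (0 + 1) B = 1 := by omega
  rwa [h2] at h1

lemma cal_ife {k i j : ℕ} {p q : P1} {B : ℕ} {σ : Z1} {r : ℕ}
    (h : (σ.v i = σ.v j → Cal k p B σ r) ∧ (σ.v i ≠ σ.v j → Cal k q B σ r)) :
    Cal k (.ife i j p q) B σ r := by
  by_cases h1 : σ.v i = σ.v j
  · have h2 := h.1 h1
    unfold Cal run
    rw [if_pos h1]
    exact h2
  · have h2 := h.2 h1
    unfold Cal run
    rw [if_neg h1]
    exact h2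

lemma cal_get {k i : ℕ} {p q : P1} {B : ℕ} {σ : Z1} {r : ℕ}
    (h : (σ.tb (σ.v i) = true → Cal k p B σ r) ∧ (σ.tb (σ.v i) ≠ true → Cal k q B σ r)) :
    Cal k (.get i p q) B σ r := by
  by_cases h1 : σ.tb (σ.v i) = true
  · have h2 := h.1 h1
    unfold Cal run
    rw [if_pos h1]
    exact h2
  · have h2 := h.2 h1
    unfold Cal run
    rw [if_neg h1]
    exact h2

open Classical in
/-- the truth value -/
noncomputable def tvl (P : Prop) : ℕ := if P then 1 else 0

lemma tvl_pos {P : Prop} (h : P) : tvl P = 1 := if_pos h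

lemma tvl_neg {P : Prop} (h : ¬ P) : tvl P = 0 := if_neg h

/-- the program computes the truth value of `P` -/
abbrev Tv (k : ℕ) (p : P1) (B : ℕ) (σ : Z1) (P : Prop) : Prop := Cal k p B σ (tvl P)

/-- the truth value of a comparison -/
lemma cal_eq {k i j : ℕ} {B : ℕ} (hB : 1 ≤ B) (σ : Z1) {P : Prop} (hP : σ.v i = σ.v j ↔ P) :
    Tv k (.ife i j (one k) (.zer k)) B σ P := by
  refine cal_ife ⟨fun h => ?_, fun h => ?_⟩
  · rw [tvl_pos (hP.1 h)]
    exact cal_one k hB σ
  · rw [tvl_neg fun h' => h (hP.2 h')]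
    exact cal_zer k B σ

lemma tv_congr {k : ℕ} {p : P1} {B : ℕ} {σ : Z1} {P Q : Prop} (h : P ↔ Q)
    (hp : Tv k p B σ P) : Tv k p B σ Q := by
  have h1 : P = Q := propext h
  rwa [← h1]

lemma tv_false (k B : ℕ) (σ : Z1) {P : Prop} (hP : ¬ P) : Tv k (.zer k) B σ P := by
  unfold Tv
  rw [tvl_neg hP]
  exact cal_zer k B σ

/-- negation -/
lemma tv_neg {k : ℕ} {p : P1} {B : ℕ} {σ : Z1} {P : Prop} (hB : 1 ≤ B) (h : Tv k p B σ P) :
    Tv k (.seq p (.seq (.zer (k + 1)) (.ife k (k + 1) (one k) (.zer k)))) B σ (¬ P) := by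
  refine cal_seq h fun σ' _ h1 => ?_
  refine cal_seq' (Nat.le_succ k) (cal_zer (k + 1) B σ') fun σ'' h2 h3 => ?_
  refine cal_eq hB σ'' ?_
  rw [h3, h2.2 k (Nat.lt_succ_self k), h1]
  by_cases hP : P
  · rw [tvl_pos hP]
    exact ⟨fun h => absurd h one_ne_zero, fun h => absurd hP h⟩
  · rw [tvl_neg hP]
    exact ⟨fun _ => hP, fun _ => rfl⟩

/-- the program for a conjunction -/
def cnj (k : ℕ) (p q : P1) : P1 :=
  .seq p (.seq q (.seq (.zer (k + 2)) (.ife k (k + 2) .nop
      (.ife (k + 1) (k + 2) (.zer k) .nop))))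

/-- conjunction -/
lemma tv_and {k : ℕ} {p q : P1} {B : ℕ} {σ : Z1} {P Q : Prop} (h : Tv k p B σ P)
    (h' : ∀ σ', Agr k σ σ' → Tv (k + 1) q B σ' Q) :
    Tv k (cnj k p q) B σ (P ∧ Q) := by
  unfold cnj
  have h1 := cal_iff.1 h
  refine cal_seq h fun σ' h2 h3 => ?_
  refine cal_seq' (Nat.le_succ k) (h' σ' h2) fun σ2 h4 h5 => ?_
  refine cal_seq' (by omega : k ≤ k + 2) (cal_zer (k + 2) B σ2) fun σ3 h6 h7 => ?_
  have h8 : σ3.v k = tvl P := by
    rw [h6.2 k (by omega), h4.2 k (by omega), h3]
  have h9 : σ3.v (k + 1) = tvl Q := by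
    rw [h6.2 (k + 1) (by omega), h5]
  have hn : ∀ r, σ3.v k = r → Cal k .nop B σ3 r := fun r hr => ⟨rfl, fun _ _ => rfl, hr⟩
  refine cal_ife ⟨fun h => ?_, fun h => ?_⟩
  · rw [h7, h8] at h
    by_cases hP : P
    · rw [tvl_pos hP] at h
      exact absurd h one_ne_zero
    · refine hn _ ?_
      rw [h8, tvl_neg hP, tvl_neg fun h => hP h.1]
  · rw [h7, h8] at h
    have hP : P := by
      by_contra hP
      rw [tvl_neg hP] at h
      exact h rfl
    refine cal_ife ⟨fun h' => ?_, fun h' => ?_⟩
    · rw [h7, h9] at h'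
      have hQ : ¬ Q := by
        intro hQ
        rw [tvl_pos hQ] at h'
        exact one_ne_zero h'
      rw [tvl_neg fun h => hQ h.2]
      exact cal_zer k B σ3
    · rw [h7, h9] at h'
      have hQ : Q := by
        by_contra hQ
        rw [tvl_neg hQ] at h'
        exact h' rfl
      refine hn _ ?_
      rw [h8, tvl_pos hP, tvl_pos ⟨hP, hQ⟩]

/-- the body of the loop for a quantifier -/
def bod (k x : ℕ) (q : P1) : P1 :=
  .seq q (.seq (.zer (k + 3)) (.seq (.ife (k + 2) (k + 3) (.zer k) .nop) (.suc x)))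

/-- the program for a quantifier -/
def qua (k x m : ℕ) (q : P1) : P1 :=
  .seq (.cpy (k + 1) x) (.seq (one k) (.seq (.zer x) (.seq (.lp m (bod k x q)) (.cpy x (k + 1)))))

open Classical in
lemma bod_run {k x : ℕ} {q : P1} {B : ℕ} {σ : Z1} {Q : Prop} (hx : x < k)
    (hq : Tv (k + 2) q B σ Q) :
    (run B (bod k x q) σ).tb = σ.tb ∧ (∀ i < k + 2, i ≠ k → i ≠ x → (run B (bod k x q) σ).v i = σ.v i) ∧
      ((run B (bod k x q) σ).v k = if Q then σ.v k else 0) ∧
      (run B (bod k x q) σ).v x = min (σ.v x + 1) B := by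
  obtain ⟨⟨h1, h2⟩, h3⟩ := cal_iff.1 hq
  have h4 : run B (bod k x q) σ = run B (.suc x) (run B (.ife (k + 2) (k + 3) (.zer k) .nop)
    (run B (.zer (k + 3)) (run B q σ))) := rfl
  rw [h4]
  obtain ⟨⟨h5, h6⟩, h7⟩ := cal_iff.1 (cal_zer (k + 3) B (run B q σ))
  obtain ⟨σ1, hσ1⟩ : ∃ σ1, run B (.zer (k + 3)) (run B q σ) = σ1 := ⟨_, rfl⟩
  rw [hσ1] at h5 h6 h7 ⊢
  have h8 : σ1.v (k + 2) = tvl Q := by
    rw [h6 _ (by omega), h3]
  have h9 : σ1.tb = σ.tb := h5.trans h1
  have h10 : ∀ i < k + 2, σ1.v i = σ.v i := fun i hi => by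
    rw [h6 i (by omega), h2 i hi]
  by_cases hQ : Q
  · rw [tvl_pos hQ] at h8
    rw [if_pos hQ]
    have h11 : run B (.ife (k + 2) (k + 3) (.zer k) .nop) σ1 = σ1 := by
      unfold run
      rw [if_neg (by rw [h8, h7]; exact one_ne_zero)]
      rfl
    rw [h11]
    refine ⟨h9, fun i hi hik hix => ?_, ?_, ?_⟩
    · change Function.update σ1.v x _ i = _
      rw [Function.update_of_ne hix, h10 i hi]
    · change Function.update σ1.v x _ k = _
      rw [Function.update_of_ne (ne_of_gt hx), h10 k (by omega)]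
    · change Function.update σ1.v x _ x = _
      rw [Function.update_self, h10 x (by omega)]
  · rw [tvl_neg hQ] at h8
    rw [if_neg hQ]
    have h11 : run B (.ife (k + 2) (k + 3) (.zer k) .nop) σ1 =
        ⟨Function.update σ1.v k 0, σ1.tb⟩ := by
      unfold run
      rw [if_pos (by rw [h8, h7])]
      rfl
    rw [h11]
    refine ⟨h9, fun i hi hik hix => ?_, ?_, ?_⟩
    · change Function.update (Function.update σ1.v k 0) x _ i = _
      rw [Function.update_of_ne hix, Function.update_of_ne hik, h10 i hi]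
    · change Function.update (Function.update σ1.v k 0) x _ k = _
      rw [Function.update_of_ne (ne_of_gt hx), Function.update_self]
    · change Function.update (Function.update σ1.v k 0) x _ x = _
      rw [Function.update_self]
      change min (Function.update σ1.v k 0 x + 1) B = _
      rw [Function.update_of_ne (ne_of_lt hx), h10 x (by omega)]

/-- the loop for a quantifier -/
lemma qua_run {k x m : ℕ} {q : P1} {B N : ℕ} {σ : Z1} {Q : ℕ → Prop} (hx : x < m) (hm : m < k)
    (hN : σ.v m = N) (hNB : N ≤ B) (h1B : 1 ≤ B)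
    (hq : ∀ b < N, ∀ σ' : Z1, σ'.tb = σ.tb → (∀ i < k, i ≠ x → σ'.v i = σ.v i) → σ'.v x = b →
      Tv (k + 2) q B σ' (Q b)) : Tv k (qua k x m q) B σ (∀ b < N, Q b) := by
  obtain ⟨σ1, hσ1⟩ : ∃ σ1, run B (.zer x) (run B (one k) (run B (.cpy (k + 1) x) σ)) = σ1 :=
    ⟨_, rfl⟩
  have h1 : σ1.tb = σ.tb := by
    rw [← hσ1]
    rfl
  have h2 : ∀ i < k, i ≠ x → σ1.v i = σ.v i := by
    intro i hi hix
    rw [← hσ1]
    change Function.update (run B (one k) (run B (.cpy (k + 1) x) σ)).v x 0 i = _
    rw [Function.update_of_ne hix, (cal_one k h1B _).2.1 i hi, (cal_cpy (k + 1) x B σ).2.1 i (by omega)]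
  have h3 : σ1.v x = 0 := by
    rw [← hσ1]
    exact Function.update_self ..
  have h4 : σ1.v k = 1 := by
    rw [← hσ1]
    change Function.update (run B (one k) (run B (.cpy (k + 1) x) σ)).v x 0 k = _
    rw [Function.update_of_ne (by omega), (cal_one k h1B _).2.2]
  have h5 : σ1.v (k + 1) = σ.v x := by
    rw [← hσ1]
    change Function.update (Function.update (Function.update (Function.update σ.v (k + 1) (σ.v x)) k 0)
      k _) x 0 (k + 1) = _
    rw [Function.update_of_ne (by omega), Function.update_of_ne (by omega),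
      Function.update_of_ne (by omega), Function.update_self]
  have h6 : ∀ b ≤ N, ((run B (bod k x q))^[b] σ1).tb = σ.tb ∧
      (∀ i < k, i ≠ x → ((run B (bod k x q))^[b] σ1).v i = σ.v i) ∧
      ((run B (bod k x q))^[b] σ1).v x = b ∧
      ((run B (bod k x q))^[b] σ1).v (k + 1) = σ.v x ∧
      (((run B (bod k x q))^[b] σ1).v k = tvl (∀ a < b, Q a)) := by
    intro b
    induction b with
    | zero =>
      intro _
      refine ⟨h1, h2, h3, h5, ?_⟩
      rw [tvl_pos fun a ha => absurd ha (Nat.not_lt_zero a)]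
      exact h4
    | succ b ih =>
      intro hb
      obtain ⟨i1, i2, i3, i4, i5⟩ := ih (by omega)
      rw [Function.iterate_succ_apply']
      obtain ⟨σ2, hσ2⟩ : ∃ σ2, (run B (bod k x q))^[b] σ1 = σ2 := ⟨_, rfl⟩
      rw [hσ2] at i1 i2 i3 i4 i5 ⊢
      obtain ⟨j1, j2, j3, j4⟩ := bod_run (x := x) (by omega) (hq b (by omega) σ2 i1 i2 i3)
      refine ⟨j1.trans i1, fun i hi hix => ?_, ?_, ?_, ?_⟩
      · rw [j2 i (by omega) (by omega) hix, i2 i hi hix]
      · rw [j4, i3]
        omega
      · rw [j2 (k + 1) (by omega) (by omega) (by omega), i4]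
      · rw [j3, i5]
        by_cases hQ : Q b
        · rw [if_pos hQ]
          by_cases h : ∀ a < b, Q a
          · rw [tvl_pos h]
            refine (tvl_pos fun a ha => ?_).symm
            rcases Nat.lt_succ_iff_lt_or_eq.1 ha with h' | rfl
            · exact h a h'
            · exact hQ
          · rw [tvl_neg h, tvl_neg fun h' => h fun a ha => h' a (by omega)]
        · rw [if_neg hQ, tvl_neg fun h' => hQ (h' b (by omega))]
  obtain ⟨l1, l2, l3, l4, l5⟩ := h6 N le_rfl
  have h7 : σ1.v m = N := by rw [h2 m hm (by omega), hN]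
  have h8 : run B (qua k x m q) σ = run B (.cpy x (k + 1)) ((run B (bod k x q))^[N] σ1) := by
    rw [← h7, ← hσ1]
    rfl
  refine cal_iff.2 ⟨⟨?_, fun i hi => ?_⟩, ?_⟩
  · rw [h8]
    exact l1
  · rw [h8]
    change Function.update ((run B (bod k x q))^[N] σ1).v x _ i = _
    by_cases hix : i = x
    · subst hix
      rw [Function.update_self, l4]
    · rw [Function.update_of_ne hix, l2 i hi hix]
  · rw [h8]
    change Function.update ((run B (bod k x q))^[N] σ1).v x _ k = _
    rw [Function.update_of_ne (by omega), l5]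

/-- EV -/
theorem pf_EV (hAR : D_AR) (hCD : D_CD) : D_EV := by
  intro R ar φ m
  induction φ with
  | rel i xs =>
    intro hbd k hk
    have hx : ∀ x ∈ xs, x < m := by
      intro x hx
      have := le_foldr_max hx
      unfold Fm.bd at hbd
      omega
    rcases Nat.lt_or_ge i 3 with hi | hi
    · interval_cases i
      · -- order
        by_cases hl : ∃ a b, xs = [a, b]
        · obtain ⟨a, b, rfl⟩ := hl
          have ha := hx a (by simp)
          have hb := hx b (by simp)
          obtain ⟨p, hp⟩ := (hAR k a b (by omega) (by omega)).2.2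
          refine ⟨p, fun B N σ h1 h2 h3 h4 => ?_⟩
          have h5 := h1 a ha
          have h6 := h1 b hb
          have h7 := hp B σ (by have := h4.1; omega) (by have := h4.1; omega)
            (by have := h4.1; omega)
          have h8 : St1 N (ET R ar N σ.tb) (.rel 0 [a, b]) σ.v ↔ σ.v a < σ.v b := by
            unfold St1
            rw [sat_rel]
            change (if 0 = 0 then ∃ x y, [σ.v a, σ.v b] = [x, y] ∧ x < y else _) ↔ _
            rw [if_pos rfl]
            constructor
            · rintro ⟨x, y, h, h'⟩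
              simp only [List.cons.injEq, and_true] at h
              rw [h.1, h.2]
              exact h'
            · intro h
              exact ⟨_, _, rfl, h⟩
          refine tv_congr h8.symm ?_
          unfold Tv
          by_cases h9 : σ.v a < σ.v b
          · rw [if_pos h9] at h7
            rw [tvl_pos h9]
            exact h7
          · rw [if_neg h9] at h7
            rw [tvl_neg h9]
            exact h7
        · refine ⟨.zer k, fun B N σ h1 h2 h3 h4 => tv_false k B σ ?_⟩
          unfold St1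
          rw [sat_rel]
          change ¬ (if 0 = 0 then ∃ x y, xs.map σ.v = [x, y] ∧ x < y else _)
          rw [if_pos rfl]
          rintro ⟨x, y, h, -⟩
          obtain ⟨a, l, rfl, -, h⟩ := List.map_eq_cons_iff.1 h
          obtain ⟨b, l', rfl, -, h⟩ := List.map_eq_cons_iff.1 h
          rw [List.map_eq_nil_iff] at h
          subst h
          exact hl ⟨a, b, rfl⟩
      · -- sum
        by_cases hl : ∃ a b c, xs = [a, b, c]
        · obtain ⟨a, b, c, rfl⟩ := hl
          have ha := hx a (by simp)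
          have hb := hx b (by simp)
          have hc := hx c (by simp)
          obtain ⟨p, hp⟩ := (hAR k a b (by omega) (by omega)).1
          refine ⟨.seq p (.ife k c (one k) (.zer k)), fun B N σ h1 h2 h3 h4 => ?_⟩
          have h5 := h1 a ha
          have h6 := h1 b hb
          have h7 := hp B σ (by have := h4.1; omega)
          refine cal_seq h7 fun σ' h8 h9 => cal_eq (by have := h4.1; omega) σ' ?_
          rw [h9, h8.2 c (by omega)]
          unfold St1
          rw [sat_rel]
          change _ ↔ (if 1 = 0 then _ else if 1 = 1 then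
            ∃ x y z, [σ.v a, σ.v b, σ.v c] = [x, y, z] ∧ x + y = z else _)
          rw [if_neg one_ne_zero, if_pos rfl]
          constructor
          · intro h
            exact ⟨_, _, _, rfl, h⟩
          · rintro ⟨x, y, z, h, h'⟩
            simp only [List.cons.injEq, and_true] at h
            rw [h.1, h.2.1, h.2.2]
            exact h'
        · refine ⟨.zer k, fun B N σ h1 h2 h3 h4 => tv_false k B σ ?_⟩
          unfold St1
          rw [sat_rel]
          change ¬ (if 1 = 0 then _ else if 1 = 1 then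
            ∃ x y z, xs.map σ.v = [x, y, z] ∧ x + y = z else _)
          rw [if_neg one_ne_zero, if_pos rfl]
          rintro ⟨x, y, z, h, -⟩
          obtain ⟨a, l, rfl, -, h⟩ := List.map_eq_cons_iff.1 h
          obtain ⟨b, l', rfl, -, h⟩ := List.map_eq_cons_iff.1 h
          obtain ⟨c, l'', rfl, -, h⟩ := List.map_eq_cons_iff.1 h
          rw [List.map_eq_nil_iff] at h
          subst h
          exact hl ⟨a, b, c, rfl⟩
      · -- product
        by_cases hl : ∃ a b c, xs = [a, b, c]
        · obtain ⟨a, b, c, rfl⟩ := hl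
          have ha := hx a (by simp)
          have hb := hx b (by simp)
          have hc := hx c (by simp)
          obtain ⟨p, hp⟩ := (hAR k a b (by omega) (by omega)).2.1
          refine ⟨.seq p (.ife k c (one k) (.zer k)), fun B N σ h1 h2 h3 h4 => ?_⟩
          have h5 := h1 a ha
          have h6 := h1 b hb
          have h7 := hp B σ ((Nat.mul_le_mul h5.le h6.le).trans (by
            have := h4.2.1
            rwa [sq] at this))
          refine cal_seq h7 fun σ' h8 h9 => cal_eq (by have := h4.1; omega) σ' ?_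
          rw [h9, h8.2 c (by omega)]
          unfold St1
          rw [sat_rel]
          change _ ↔ (if 2 = 0 then _ else if 2 = 1 then _ else if 2 = 2 then
            ∃ x y z, [σ.v a, σ.v b, σ.v c] = [x, y, z] ∧ x * y = z else _)
          rw [if_neg two_ne_zero, if_neg (by norm_num), if_pos rfl]
          constructor
          · intro h
            exact ⟨_, _, _, rfl, h⟩
          · rintro ⟨x, y, z, h, h'⟩
            simp only [List.cons.injEq, and_true] at h
            rw [h.1, h.2.1, h.2.2]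
            exact h'
        · refine ⟨.zer k, fun B N σ h1 h2 h3 h4 => tv_false k B σ ?_⟩
          unfold St1
          rw [sat_rel]
          change ¬ (if 2 = 0 then _ else if 2 = 1 then _ else if 2 = 2 then
            ∃ x y z, xs.map σ.v = [x, y, z] ∧ x * y = z else _)
          rw [if_neg two_ne_zero, if_neg (by norm_num), if_pos rfl]
          rintro ⟨x, y, z, h, -⟩
          obtain ⟨a, l, rfl, -, h⟩ := List.map_eq_cons_iff.1 h
          obtain ⟨b, l', rfl, -, h⟩ := List.map_eq_cons_iff.1 h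
          obtain ⟨c, l'', rfl, -, h⟩ := List.map_eq_cons_iff.1 h
          rw [List.map_eq_nil_iff] at h
          subst h
          exact hl ⟨a, b, c, rfl⟩
    · rcases Nat.even_or_odd' i with ⟨j, hj | hj⟩
      · -- witnesses
        obtain ⟨j', rfl⟩ : ∃ j', j = j' + 2 := ⟨j - 2, by omega⟩
        refine ⟨.zer k, fun B N σ h1 h2 h3 h4 => tv_false k B σ ?_⟩
        unfold St1
        rw [sat_rel, hj, show 2 * (j' + 2) = 4 + 2 * j' by ring, J_I]
        exact fun h => h
      · obtain ⟨j', rfl⟩ : ∃ j', j = j' + 1 := ⟨j - 1, by omega⟩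
        by_cases hR : j' < R ∧ xs.length = ar j'
        · obtain ⟨p, hp⟩ := hCD R j' xs m k hR.1 (fun x hx' => (hx x hx').trans hk) hk
          refine ⟨.seq p (.get k (one k) (.zer k)), fun B N σ h1 h2 h3 h4 => ?_⟩
          have h5 : ∀ x ∈ xs, σ.v x < σ.v m := fun x hx' => by
            rw [h2]
            exact h1 x (hx x hx')
          have h6 := hp B σ h5 (by
            rw [h2, hR.2]
            exact h4.2.2 j' hR.1)
          refine cal_seq h6 fun σ' h7 h8 => ?_
          have h9 : St1 N (ET R ar N σ.tb) (.rel i xs) σ.v ↔ σ'.tb (σ'.v k) = true := by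
            unfold St1
            rw [sat_rel, hj, show 2 * (j' + 1) + 1 = 3 + 2 * j' by ring, J_E, h7.1, h8, h2]
            unfold ET
            rw [List.length_map]
            constructor
            · exact fun h => h.2.2.2
            · refine fun h => ⟨hR.1, hR.2, fun y hy => ?_, h⟩
              obtain ⟨x, hx', rfl⟩ := List.mem_map.1 hy
              exact h1 x (hx x hx')
          refine cal_get ⟨fun h => ?_, fun h => ?_⟩
          · rw [if_pos (h9.2 h)]
            exact cal_one k (by have := h4.1; omega) σ'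
          · rw [if_neg fun h' => h (h9.1 h')]
            exact cal_zer k B σ'
        · refine ⟨.zer k, fun B N σ h1 h2 h3 h4 => tv_false k B σ ?_⟩
          unfold St1
          rw [sat_rel, hj, show 2 * (j' + 1) + 1 = 3 + 2 * j' by ring, J_E]
          rintro ⟨h5, h6, -⟩
          rw [List.length_map] at h6
          exact hR ⟨h5, h6⟩
  | eq x y =>
    intro hbd k hk
    refine ⟨.ife x y (one k) (.zer k), fun B N σ h1 h2 h3 h4 => ?_⟩
    exact cal_eq (by have := h4.1; omega) σ Iff.rfl
  | neg φ ih =>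
    intro hbd k hk
    obtain ⟨p, hp⟩ := ih hbd k hk
    exact ⟨_, fun B N σ h1 h2 h3 h4 => tv_neg (by have := h4.1; omega) (hp B N σ h1 h2 h3 h4)⟩
  | and φ ψ ih1 ih2 =>
    intro hbd k hk
    unfold Fm.bd at hbd
    obtain ⟨p, hp⟩ := ih1 (by omega) k hk
    obtain ⟨q, hq⟩ := ih2 (by omega) (k + 1) (by omega)
    refine ⟨cnj k p q, fun B N σ h1 h2 h3 h4 => tv_and (hp B N σ h1 h2 h3 h4) fun σ' h5 => ?_⟩
    have h6 := hq B N σ' (fun x hx => by rw [h5.2 x (by omega)]; exact h1 x hx)
      (by rw [h5.2 m hk]; exact h2) h3 h4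
    refine tv_congr ?_ h6
    unfold St1
    rw [h5.1]
    exact sat_congr fun x hx => h5.2 x (by omega)
  | all x φ ih =>
    intro hbd k hk
    unfold Fm.bd at hbd
    obtain ⟨q, hq⟩ := ih (by omega) (k + 2) (by omega)
    refine ⟨qua k x m q, fun B N σ h1 h2 h3 h4 => ?_⟩
    refine qua_run (N := N) (Q := fun b => St1 N (ET R ar N σ.tb) φ (Function.update σ.v x b))
      (by omega) hk h2 (by have := h4.1; omega) (by have := h4.1; omega)
      fun b hb σ' h5 h6 h7 => ?_
    have h8 := hq B N σ' (fun y hy => ?_) (by rw [h6 m hk (by omega)]; exact h2) h3 h4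
    · refine tv_congr ?_ h8
      unfold St1
      rw [h5]
      refine sat_congr fun y hy => ?_
      by_cases hyx : y = x
      · subst hyx
        rw [Function.update_self, h7]
      · rw [Function.update_of_ne hyx, h6 y (by omega) hyx]
    · by_cases hyx : y = x
      · subst hyx
        rw [h7]
        exact hb
      · rw [h6 y (by omega) hyx]
        exact h1 y hy

end Pool.Agent.H75.DE
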