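import Pool.Agent.H8.DE.Targets

/-!
# Board det_modules: DT (sets given by inductive definitions are in E)
-/

set_option autoImplicit false

namespace Pool.Agent.H75.DE

open Pool.Agent.H69.Sp Pool.Agent.H69.VR Pool.Agent.H8.VR Pool.Agent.H8.JS Pool.Agent.H8.MC
  Pool.Agent.H8.DE

/-- nested loops -/
def nst (m : ℕ) (p : P1) : ℕ → P1
  | 0 => p
  | j + 1 => .lp m (nst m p j)

lemma nst_run {m : ℕ} {p : P1} {B N n : ℕ} {F : (ℕ → Bool) → ℕ → Bool}
    (hp : ∀ σ : Z1, σ.v 0 = n → σ.v m = N → (run B p σ).tb = F σ.tb ∧ (run B p σ).v 0 = n ∧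
      (run B p σ).v m = N) (j : ℕ) :
    ∀ σ : Z1, σ.v 0 = n → σ.v m = N → (run B (nst m p j) σ).tb = F^[N ^ j] σ.tb ∧
      (run B (nst m p j) σ).v 0 = n ∧ (run B (nst m p j) σ).v m = N := by
  induction j with
  | zero =>
    intro σ h1 h2
    rw [pow_zero]
    exact hp σ h1 h2
  | succ j ih =>
    intro σ h1 h2
    have h3 : ∀ a : ℕ, ((run B (nst m p j))^[a] σ).tb = F^[N ^ j * a] σ.tb ∧
        ((run B (nst m p j))^[a] σ).v 0 = n ∧ ((run B (nst m p j))^[a] σ).v m = N := by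
      intro a
      induction a with
      | zero => exact ⟨rfl, h1, h2⟩
      | succ a iha =>
        rw [Function.iterate_succ_apply']
        obtain ⟨i1, i2, i3⟩ := ih _ iha.2.1 iha.2.2
        refine ⟨?_, i2, i3⟩
        rw [i1, iha.1, ← Function.iterate_add_apply]
        congr 1
        ring_nf
    have h4 : run B (nst m p (j + 1)) σ = (run B (nst m p j))^[N] σ := by
      rw [← h2]
      rfl
    rw [h4, pow_succ]
    exact h3 N

/-- the variables `1, …, j` are set to zero -/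
def zrs : ℕ → P1
  | 0 => .nop
  | j + 1 => .seq (zrs j) (.zer (j + 1))

lemma zrs_run (B : ℕ) (σ : Z1) (j : ℕ) : (run B (zrs j) σ).tb = σ.tb ∧
    (∀ i, 1 ≤ i → i ≤ j → (run B (zrs j) σ).v i = 0) ∧
    (∀ i, i = 0 ∨ j < i → (run B (zrs j) σ).v i = σ.v i) := by
  induction j with
  | zero => exact ⟨rfl, fun i h1 h2 => by omega, fun i _ => rfl⟩
  | succ j ih =>
    obtain ⟨h1, h2, h3⟩ := ih
    refine ⟨h1, fun i hi1 hi2 => ?_, fun i hi => ?_⟩
    · change Function.update (run B (zrs j) σ).v (j + 1) 0 i = 0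
      by_cases h : i = j + 1
      · rw [h, Function.update_self]
      · rw [Function.update_of_ne h, h2 i hi1 (by omega)]
    · change Function.update (run B (zrs j) σ).v (j + 1) 0 i = _
      rw [Function.update_of_ne (by omega), h3 i (by omega)]

lemma le_sum_ar {R : ℕ} (f : ℕ → ℕ) {i : ℕ} (hi : i < R) : f i ≤ ∑ i ∈ Finset.range R, f i :=
  Finset.single_le_sum (f := f) (fun _ _ => Nat.zero_le _) (Finset.mem_range.2 hi)

lemma big_of {R : ℕ} {ar : ℕ → ℕ} {N : ℕ} (hN : 2 ≤ N) :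
    Big R ar N (N ^ (R + ∑ i ∈ Finset.range R, ar i + 3)) := by
  have h0 : ∀ a b : ℕ, a ≤ b → N ^ a ≤ N ^ b := fun a b h => Nat.pow_le_pow_right (by omega) h
  have h1 : R ≤ N ^ R := (Nat.lt_two_pow_self).le.trans (Nat.pow_le_pow_left hN R)
  refine ⟨?_, h0 _ _ (by omega), fun i hi => ?_⟩
  · calc 2 * N ≤ N * N := Nat.mul_le_mul_right _ hN
      _ = N ^ 2 := (sq N).symm
      _ ≤ _ := h0 _ _ (by omega)
  · calc R * N ^ ar i ≤ N ^ R * N ^ ar i := Nat.mul_le_mul_right _ h1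
      _ = N ^ (R + ar i) := (pow_add ..).symm
      _ ≤ _ := h0 _ _ (by
        have := le_sum_ar ar hi
        omega)

/-- DT -/
theorem pf_DT (hE1 : D_E1) (hPS : D_PS) (hFX : D_FX) (hEV : D_EV) : D_DT := by
  classical
  intro R ar Φ Ψ S hS
  obtain ⟨m, hm2, hmΨ, hmΦ⟩ : ∃ m, 2 ≤ m ∧ Ψ.bd ≤ m ∧ ∀ i < R, (Φ i).bd ≤ m ∧ ar i < m := by
    refine ⟨2 + Ψ.bd + ∑ i ∈ Finset.range R, ((Φ i).bd + ar i), by omega, by omega, fun i hi => ?_⟩
    have h1 : (Φ i).bd + ar i ≤ ∑ i ∈ Finset.range R, ((Φ i).bd + ar i) :=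
      le_sum_ar (fun i => (Φ i).bd + ar i) hi
    omega
  obtain ⟨p, hp⟩ := hPS R ar Φ m (by omega) hmΦ
  obtain ⟨q, hq⟩ := hEV R ar Ψ m hmΨ (m + 1) (Nat.lt_succ_self m)
  have hK : 0 < R + ∑ i ∈ Finset.range R, ar i + 3 := by omega
  refine hE1 (.seq (.cpy m 0) (.seq (.suc m) (.seq (nst m p (R + ∑ i ∈ Finset.range R, ar i + 1))
    (.seq (zrs (m - 1)) (.seq q (.cpy 1 (m + 1))))))) _ S hK fun n hn => ?_
  obtain ⟨N, hN⟩ : ∃ N, n + 1 = N := ⟨_, rfl⟩
  obtain ⟨B, hB⟩ : ∃ B, (n + 1) ^ (R + ∑ i ∈ Finset.range R, ar i + 3) = B := ⟨_, rfl⟩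
  have hbig : Big R ar N B := by
    rw [← hB, hN]
    exact big_of (by omega)
  rw [hB]
  obtain ⟨ls, hls, hrun⟩ := hp B N n (by omega) hbig
  obtain ⟨Es, hs1, hs2⟩ := hS n hn
  rw [hN] at hs1 hs2
  have hT : R * N ^ (∑ i ∈ Finset.range R, ar i) < N ^ (R + ∑ i ∈ Finset.range R, ar i + 1) := by
    have h1 : R < N ^ (R + 1) := by
      calc R < 2 ^ R := Nat.lt_two_pow_self
        _ ≤ N ^ R := Nat.pow_le_pow_left (by omega) R
        _ ≤ N ^ (R + 1) := Nat.pow_le_pow_right (by omega) (Nat.le_succ R)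
    calc R * N ^ (∑ i ∈ Finset.range R, ar i)
        < N ^ (R + 1) * N ^ (∑ i ∈ Finset.range R, ar i) :=
          Nat.mul_lt_mul_of_pos_right h1 (Nat.pow_pos (by omega))
      _ = _ := by
        rw [← pow_add]
        congr 1
        omega
  obtain ⟨hf1, hf2⟩ := hFX R ar Φ N n ls Es (by omega) hls hs1 _ hT
  -- the states
  obtain ⟨σ1, hσ1⟩ : ∃ σ1, run B (.suc m) (run B (.cpy m 0) (i1 n)) = σ1 := ⟨_, rfl⟩
  have a1 : σ1.tb = fun _ => false := by
    rw [← hσ1]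
    rfl
  have a2 : σ1.v 0 = n := by
    rw [← hσ1]
    change Function.update (Function.update (i1 n).v m ((i1 n).v 0)) m _ 0 = n
    rw [Function.update_of_ne (by omega), Function.update_of_ne (by omega)]
    rfl
  have a3 : σ1.v m = N := by
    rw [← hσ1]
    change Function.update (Function.update (i1 n).v m ((i1 n).v 0)) m
      (min (Function.update (i1 n).v m ((i1 n).v 0) m + 1) B) m = N
    rw [Function.update_self, Function.update_self]
    have h1 : (i1 n).v 0 = n := rfl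
    have h2 := hbig.1
    rw [h1]
    omega
  obtain ⟨b1, b2, b3⟩ := nst_run (F := fun tb => ls.foldl (ad R ar Φ N n) tb) hrun (R + ∑ i ∈ Finset.range R, ar i + 1) σ1 a2 a3
  obtain ⟨σ2, hσ2⟩ : ∃ σ2, run B (nst m p (R + ∑ i ∈ Finset.range R, ar i + 1)) σ1 = σ2 :=
    ⟨_, rfl⟩
  rw [hσ2] at b1 b2 b3
  rw [a1] at b1
  obtain ⟨c1, c2, c3⟩ := zrs_run B σ2 (m - 1)
  obtain ⟨σ3, hσ3⟩ : ∃ σ3, run B (zrs (m - 1)) σ2 = σ3 := ⟨_, rfl⟩
  rw [hσ3] at c1 c2 c3
  have d1 : σ3.v 0 = n := by rw [c3 0 (Or.inl rfl), b2]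
  have d2 : σ3.v m = N := by rw [c3 m (Or.inr (by omega)), b3]
  have d3 : ∀ x < m, σ3.v x = vl [] n x := by
    intro x hx
    unfold vl
    by_cases h : x = 0
    · rw [h, if_pos rfl, d1]
    · rw [if_neg h, c2 x (by omega) (by omega)]
      rfl
  have d4 : ∀ x < m, σ3.v x < N := by
    intro x hx
    by_cases h : x = 0
    · rw [h, d1]
      omega
    · rw [c2 x (by omega) (by omega)]
      omega
  obtain ⟨-, -, e3⟩ := hq B N σ3 d4 d2 (by omega) hbig
  have e4 : run B (.seq (.cpy m 0) (.seq (.suc m)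
      (.seq (nst m p (R + ∑ i ∈ Finset.range R, ar i + 1))
        (.seq (zrs (m - 1)) (.seq q (.cpy 1 (m + 1))))))) (i1 n) =
      run B (.cpy 1 (m + 1)) (run B q σ3) := by
    rw [← hσ3, ← hσ2, ← hσ1]
    rfl
  rw [e4]
  have e5 : (run B (.cpy 1 (m + 1)) (run B q σ3)).v 1 = (run B q σ3).v (m + 1) := by
    change Function.update (run B q σ3).v 1 ((run B q σ3).v (m + 1)) 1 = _
    rw [Function.update_self]
  rw [e5, e3]
  have e6 : St1 N (ET R ar N σ3.tb) Ψ σ3.v ↔ n ∈ S := by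
    rw [← hs2 (ET R ar N σ3.tb) ?_ ?_]
    · exact sat_congr fun x hx => d3 x (by omega)
    · rw [c1, b1]
      exact hf1
    · rw [c1, b1]
      exact hf2
  rw [← e6]
  by_cases h : St1 N (ET R ar N σ3.tb) Ψ σ3.v
  · rw [if_pos h]
    exact ⟨fun _ => h, fun _ => one_ne_zero⟩
  · rw [if_neg h]
    exact ⟨fun h' => absurd rfl h', fun h' => absurd h' h⟩

end Pool.Agent.H75.DE
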